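import Pool.Agent.U190.MT.Adic
import Pool.Agent.U190.JS.Top

/-!
# The Mumford-Tate conjecture for a sum with a small or potentially commutative family
-/

set_option autoImplicit false
set_option linter.unusedSectionVars false
set_option linter.style.haveILetI false

open Matrix Filter Topology
open Pool.Agent.Y142.ZO Pool.Agent.Y142.ZI Pool.Agent.Y142.ZS Pool.Agent.R932.PO Pool.Agent.U190.JS

namespace Pool.Agent.U190.MT

section big
variable {k₀ K : Type} [Field k₀] [CharZero k₀] [Field K] [Algebra k₀ K] {ι ι' : Type} [Fintype ι]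
  [DecidableEq ι] [Fintype ι'] [DecidableEq ι'] {N w : ι → ℕ} {d : ι' → ℕ}
  {J : ∀ i, Matrix (Fin (N i)) (Fin (N i)) k₀}

theorem spLie_iff {M : ℕ} {J : Matrix (Fin M) (Fin M) k₀} {X : Matrix (Fin M) (Fin M) K} :
    SpLie (J.map (algebraMap k₀ K)) X ↔ ∀ f : K →ₗ[k₀] k₀, SpLie J (X.map f) := by
  refine ⟨fun h f => spLie_coord f h, fun h => ?_⟩
  unfold SpLie at h ⊢
  ext p q
  rw [Matrix.zero_apply, ← Module.forall_dual_apply_eq_zero_iff k₀]
  intro f
  have h1 := congrFun (congrFun (h f) p) q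
  rw [Matrix.zero_apply] at h1
  rw [← h1, Matrix.add_apply, Matrix.add_apply, map_add, Matrix.mul_apply, Matrix.mul_apply,
    Matrix.mul_apply, Matrix.mul_apply, map_sum, map_sum]
  congr 1
  · refine Finset.sum_congr rfl fun j _ => ?_
    rw [Matrix.transpose_apply, Matrix.transpose_apply, Matrix.map_apply, Matrix.map_apply, mul_comm,
      mul_comm (f (X j p)), ← Algebra.smul_def, map_smul, smul_eq_mul]
  · refine Finset.sum_congr rfl fun j _ => ?_
    rw [Matrix.map_apply, Matrix.map_apply, ← Algebra.smul_def, map_smul, smul_eq_mul]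

theorem cenL_map (f : K →ₗ[k₀] k₀) (Z : Space K (Sum.elim N d)) (i : ι) [CharZero K] :
    cenL w N d i (mapS f Z) = (cenL w N d i Z).map f := by
  ext p q
  show f (pL Z i p q) - (((w i : k₀) / 2 * f Z.2) • (1 : Matrix (Fin (N i)) (Fin (N i)) k₀)) p q =
    f (pL Z i p q - (((w i : K) / 2 * Z.2) • (1 : Matrix (Fin (N i)) (Fin (N i)) K)) p q)
  rw [map_sub]
  congr 1
  have h1 : ((w i : K) / 2) = algebraMap k₀ K ((w i : k₀) / 2) := by
    rw [map_div₀, map_natCast, map_ofNat]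
  by_cases hpq : p = q
  · subst hpq
    show ((w i : k₀) / 2 * f Z.2) * (1 : Matrix (Fin (N i)) (Fin (N i)) k₀) p p =
      f (((w i : K) / 2 * Z.2) * (1 : Matrix (Fin (N i)) (Fin (N i)) K) p p)
    rw [Matrix.one_apply_eq, Matrix.one_apply_eq, mul_one, mul_one, h1, ← Algebra.smul_def, map_smul,
      smul_eq_mul]
  · show ((w i : k₀) / 2 * f Z.2) * (1 : Matrix (Fin (N i)) (Fin (N i)) k₀) p q =
      f (((w i : K) / 2 * Z.2) * (1 : Matrix (Fin (N i)) (Fin (N i)) K) p q)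
    rw [Matrix.one_apply_ne hpq, Matrix.one_apply_ne hpq, mul_zero, mul_zero, map_zero]

theorem ext_big {𝔟 : Submodule k₀ (Space k₀ d)} {Z : Space K (Sum.elim N d)} :
    Z ∈ extS K (Big J w 𝔟) ↔
      (∀ i, SpLie ((J i).map (algebraMap k₀ K)) (cenL w N d i Z)) ∧ prS K N d Z ∈ extS K 𝔟 := by
  haveI : CharZero K := charZero_of_injective_algebraMap (algebraMap k₀ K).injective
  rw [mem_ext, mem_ext]
  constructor
  · intro h
    refine ⟨fun i => ?_, fun f => ((mem_big (J := J) (w := w)).1 (h f)).2⟩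
    rw [spLie_iff]
    intro f
    rw [← cenL_map]
    exact ((mem_big (J := J) (w := w)).1 (h f)).1 i
  · rintro ⟨h1, h2⟩ f
    rw [mem_big]
    refine ⟨fun i => ?_, h2 f⟩
    rw [cenL_map]
    exact spLie_iff.1 (h1 i) f

end big

/-- `n ^ 2` is smaller than the dimension of the rational Lie algebra of the form -/
theorem small_rank₀ {N : ℕ} {J : Matrix (Fin N) (Fin N) ℚ} (hJ : Jᵀ = J ∨ Jᵀ = -J) (hd : J.det ≠ 0)
    {n : ℕ} (h : Small J n) : n ^ 2 < Module.finrank ℚ (spSub J) := by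
  have h1 : Even (N * (N - 1)) := Nat.even_mul_pred_self N
  have h2 : Even (N * (N + 1)) := Nat.even_mul_succ_self N
  obtain ⟨c, hc⟩ := h1
  obtain ⟨e, he⟩ := h2
  have h3 : N * (N - 1) ≤ N * (N + 1) := Nat.mul_le_mul_left N (by omega)
  by_cases halt : Jᵀ = -J
  · have h4 := dim_lower' hd halt
    have h5 : 2 * n ^ 2 < N * (N + 1) := by
      rcases h with h | h
      · omega
      · exact h.2
    omega
  · have h4 := dim_lower hd (hJ.resolve_right halt)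
    have h5 : 2 * n ^ 2 < N * (N - 1) := by
      rcases h with h | h
      · exact h
      · exact absurd h.1 halt
    omega

section mtc
variable {ℓ : ℕ} [hℓ : Fact ℓ.Prime] {X : Type} [Fintype X] {n : X → ℕ} {G : Type} [Group G]

/-- the Mumford-Tate conjecture: the Lie algebra of the image of `G` is the extension of scalars of
the smallest rational Lie algebra whose complexification contains the Hodge operators -/
def MTC (ρ : ∀ x, G →* Matrix (Fin (n x)) (Fin (n x)) ℚ_[ℓ]) (κ : G →* ℚ_[ℓ])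
    (h : ∀ x, Matrix (Fin (n x)) (Fin (n x)) ℂ) : Prop :=
  ∀ Z : Space ℚ_[ℓ] n, TanS ρ κ Z ↔ Z ∈ extS ℚ_[ℓ] (hull ℚ ((h, (1 : ℂ)) : Space ℂ n))

end mtc

section equiv
variable {ℓ : ℕ} [hℓ : Fact ℓ.Prime] {ι ι' : Type} [Fintype ι] [DecidableEq ι] [Fintype ι']
  [DecidableEq ι'] {N w : ι → ℕ} {d : ι' → ℕ}
  {G : Type} [Group G] [TopologicalSpace G] [IsTopologicalGroup G] [CompactSpace G]
  {ρ : ∀ i, G →* Matrix (Fin (N i)) (Fin (N i)) ℚ_[ℓ]}
  {α : ∀ s, G →* Matrix (Fin (d s)) (Fin (d s)) ℚ_[ℓ]} {κ : G →* ℚ_[ℓ]}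
  {J : ∀ i, Matrix (Fin (N i)) (Fin (N i)) ℚ}
  {h : ∀ i, Matrix (Fin (N i)) (Fin (N i)) ℂ} {hA : ∀ s, Matrix (Fin (d s)) (Fin (d s)) ℂ}

theorem generator {𝔞 : Submodule ℚ (Space ℚ d)} {Y : Space ℚ d} (hY : Y ∈ 𝔞) :
    mapS (algebraMap ℚ ℚ_[ℓ]) Y ∈ extS ℚ_[ℓ] 𝔞 :=
  Submodule.subset_span ⟨Y, hY, rfl⟩

/-- **The Mumford-Tate conjecture for the sum is equivalent to the conjecture for the second
family.** -/
theorem mtc_iff (hJ : ∀ i, IsForm (J i)) (hJℓ : ∀ i, IsForm ((J i).map (algebraMap ℚ ℚ_[ℓ])))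
    (hρ : ∀ i, Continuous (ρ i)) (hα : ∀ s, Continuous (α s)) (hκ : Continuous κ)
    (hmult : ∀ i g, Sim ((J i).map (algebraMap ℚ ℚ_[ℓ])) (ρ i g) (κ g ^ w i))
    (hfull : ∀ X, (∀ i, SpLie ((J i).map (algebraMap ℚ ℚ_[ℓ])) (X i)) → JTan ℓ ρ X)
    (hg : GenericW J w h)
    (hweak : ∀ s, (∀ i, Small (J i) (d s)) ∨
      ∃ U : Subgroup G, IsOpen (U : Set G) ∧ ∀ σ ∈ U, ∀ τ ∈ U, α s σ * α s τ = α s τ * α s σ) :
    MTC (joinR ρ α) κ (joinM h hA) ↔ MTC α κ hA := by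
  have hsym : ∀ i, (J i)ᵀ = J i ∨ (J i)ᵀ = -J i := fun i => by
    rcases (hJ i).1 with h1 | h1
    · exact Or.inl h1.1
    · exact Or.inr h1
  have hweakℓ : ∀ s, Weak ℓ (fun i => (J i).map (algebraMap ℚ ℚ_[ℓ])) (α s) := by
    intro s
    rcases hweak s with h1 | h1
    · exact Or.inl fun i => small_rank (hsym i) (hJ i).2 (h1 i) ℓ
    · exact Or.inr h1
  have htan := tan_iff (w := w) hJℓ hρ hα hκ hmult hfull hweakℓ
  obtain ⟨𝔤A, h𝔤A⟩ := exists_tanSub α κ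
  constructor
  · intro hM Y
    constructor
    · intro hY
      -- the lift with scalar components
      let Z : Space ℚ_[ℓ] (Sum.elim N d) :=
        (joinM (fun i => ((w i : ℚ_[ℓ]) / 2 * Y.2) • (1 : Matrix (Fin (N i)) (Fin (N i)) ℚ_[ℓ])) Y.1,
          Y.2)
      have hZ : TanS (joinR ρ α) κ Z := by
        rw [htan]
        refine ⟨fun i => ?_, hY⟩
        have h1 : cenL w N d i Z = 0 := by
          show ((w i : ℚ_[ℓ]) / 2 * Y.2) • (1 : Matrix (Fin (N i)) (Fin (N i)) ℚ_[ℓ]) -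
            ((w i : ℚ_[ℓ]) / 2 * Y.2) • (1 : Matrix (Fin (N i)) (Fin (N i)) ℚ_[ℓ]) = 0
          exact sub_self _
        rw [h1]
        exact (spSub ((J i).map (algebraMap ℚ ℚ_[ℓ]))).zero_mem
      have h2 := (hM Z).1 hZ
      rw [mem_ext] at h2 ⊢
      intro f
      exact (hull_proj (z := ((joinM h hA, (1 : ℂ)) : Space ℂ (Sum.elim N d)))).2 ⟨_, h2 f, rfl⟩
    · intro hY
      rw [← h𝔤A]
      refine (Submodule.span_le.2 ?_) hY
      rintro _ ⟨Y₀, hY₀, rfl⟩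
      show _ ∈ 𝔤A
      rw [h𝔤A]
      obtain ⟨Z₀, hZ₀, rfl⟩ :=
        (hull_proj (z := ((joinM h hA, (1 : ℂ)) : Space ℂ (Sum.elim N d)))).1 hY₀
      exact tan_pr ((hM _).2 (generator hZ₀))
  · intro hA' Z
    have hs : ∀ s, (∀ i, d s ^ 2 < Module.finrank ℚ (spSub (J i))) ∨
        ∀ Z ∈ hull ℚ ((hA, (1 : ℂ)) : Space ℂ d), ∀ W ∈ hull ℚ ((hA, (1 : ℂ)) : Space ℂ d),
          Z.1 s * W.1 s = W.1 s * Z.1 s := by
      intro s
      rcases hweak s with h1 | ⟨U, hU, hc⟩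
      · exact Or.inl fun i => small_rank₀ (hsym i) (hJ i).2 (h1 i)
      · right
        intro Z hZ W hW
        obtain ⟨σ, h2, -⟩ := (hA' _).2 (generator (ℓ := ℓ) hZ)
        obtain ⟨τ, h3, -⟩ := (hA' _).2 (generator (ℓ := ℓ) hW)
        have h4 := tan_comm (hα s) hU hc ⟨σ, h2 s⟩ ⟨τ, h3 s⟩
        have h5 : ((Z.1 s).map (algebraMap ℚ ℚ_[ℓ])) * ((W.1 s).map (algebraMap ℚ ℚ_[ℓ])) =
          ((W.1 s).map (algebraMap ℚ ℚ_[ℓ])) * ((Z.1 s).map (algebraMap ℚ ℚ_[ℓ])) := h4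
        rw [← Matrix.map_mul, ← Matrix.map_mul] at h5
        exact Matrix.map_injective (algebraMap ℚ ℚ_[ℓ]).injective h5
    rw [hull_eq_big hJ hg hs, ext_big, htan, hA']

end equiv

end Pool.Agent.U190.MT
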