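import Pool.Agent.U190.MT.Equiv
import Pool.Agent.Y497.ZO.LogPow

/-!
# The Mumford-Tate conjecture for sums with arbitrary small or potentially abelian motives
-/

set_option autoImplicit false
set_option linter.unusedSectionVars false
set_option linter.style.haveILetI false

open Matrix Polynomial Filter Topology NumberField IsDedekindDomain
open Pool.Agent.Y142.ZO Pool.Agent.Y142.ZI Pool.Agent.Y142.ZS
open Pool.Agent.R932.OP Pool.Agent.R932.EV Pool.Agent.R932.PO Pool.Agent.U190.JS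

namespace Pool.Agent.U190.MT

section alone
variable {ℓ : ℕ} [hℓ : Fact ℓ.Prime] {ι ι' : Type} [Fintype ι] [DecidableEq ι] [Fintype ι']
  [DecidableEq ι'] {N w : ι → ℕ} {d : ι' → ℕ} {G : Type} [Group G]
  {ρ : ∀ i, G →* Matrix (Fin (N i)) (Fin (N i)) ℚ_[ℓ]}
  {α : ∀ s, G →* Matrix (Fin (d s)) (Fin (d s)) ℚ_[ℓ]} {κ : G →* ℚ_[ℓ]}
  {h : ∀ i, Matrix (Fin (N i)) (Fin (N i)) ℂ} {hA : ∀ s, Matrix (Fin (d s)) (Fin (d s)) ℂ}

/-- the projection to the first family -/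
def prF (F : Type) [Field F] (N : ι → ℕ) (d : ι' → ℕ) :
    Space F (Sum.elim N d) →ₗ[F] Space F N where
  toFun Z := (fun i => Z.1 (Sum.inl i), Z.2)
  map_add' _ _ := rfl
  map_smul' _ _ := rfl

theorem hull_projF {k₀ K : Type} [Field k₀] [Field K] [Algebra k₀ K]
    {z : Space K (Sum.elim N d)} {Y : Space k₀ N} :
    Y ∈ hull k₀ (prF K N d z) ↔ ∃ Z ∈ hull k₀ z, prF k₀ N d Z = Y := by
  constructor
  · intro hY
    have h1 : hull k₀ (prF K N d z) ≤ (hull k₀ z).map (prF k₀ N d) := by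
      refine hull_le ?_ fun f => ?_
      · rintro _ ⟨Z, hZ, rfl⟩ _ ⟨W, hW, rfl⟩
        exact ⟨com Z W, hull_com Z hZ W hW, rfl⟩
      · exact ⟨mapS f z, hull_coord f, rfl⟩
    exact h1 hY
  · rintro ⟨Z, hZ, rfl⟩
    have h1 : hull k₀ z ≤ (hull k₀ (prF K N d z)).comap (prF k₀ N d) := by
      refine hull_le ?_ fun f => ?_
      · intro Z hZ W hW
        exact hull_com (prF k₀ N d Z) hZ (prF k₀ N d W) hW
      · exact hull_coord (z := prF K N d z) f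
    exact h1 hZ

/-- an empty second family can be removed -/
theorem mtc_remove [IsEmpty ι'] (hM : MTC (joinR ρ α) κ (joinM h hA)) : MTC ρ κ h := by
  intro Y
  let Z : Space ℚ_[ℓ] (Sum.elim N d) := (joinM Y.1 (fun s => isEmptyElim s), Y.2)
  have h1 : TanS ρ κ Y ↔ TanS (joinR ρ α) κ Z := by
    constructor
    · rintro ⟨σ, h1, h2⟩
      refine ⟨σ, fun x => ?_, h2⟩
      cases x with
      | inl i => exact h1 i
      | inr s => exact isEmptyElim s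
    · rintro ⟨σ, h1, h2⟩
      exact ⟨σ, fun i => h1 (Sum.inl i), h2⟩
  rw [h1, hM Z, mem_ext, mem_ext]
  refine forall_congr' fun f => ?_
  constructor
  · intro h2
    exact (hull_projF (z := ((joinM h hA, (1 : ℂ)) : Space ℂ (Sum.elim N d)))).2 ⟨_, h2, rfl⟩
  · intro h2
    obtain ⟨W, hW, h3⟩ :=
      (hull_projF (z := ((joinM h hA, (1 : ℂ)) : Space ℂ (Sum.elim N d)))).1 h2
    have h4 : W = mapS f Z := by
      refine Prod.ext ?_ ?_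
      · funext x
        cases x with
        | inl i =>
          have h5 : (prF ℚ N d W).1 i = (mapS f Y).1 i := by rw [h3]
          exact h5
        | inr s => exact isEmptyElim s
      · have h5 : (prF ℚ N d W).2 = (mapS f Y).2 := by rw [h3]
        exact h5
    rw [← h4]
    exact hW

/-- the conjecture for the empty family, if the character has a nonzero tangent vector -/
theorem mtc_empty [IsEmpty ι'] {c : ℚ_[ℓ]} (hc : c ≠ 0) {σ : ℕ → G}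
    (hσ : Tendsto (fun m : ℕ => ((ℓ : ℚ_[ℓ]) ^ m)⁻¹ * (κ (σ m) - 1)) atTop (𝓝 c)) :
    MTC α κ hA := by
  obtain ⟨𝔤, h𝔤⟩ := exists_tanSub α κ
  have huniq : ∀ {F : Type} [Field F] (Z W : Space F d), Z.2 = W.2 → Z = W := by
    intro F _ Z W h1
    exact Prod.ext (funext fun s => isEmptyElim s) h1
  intro Z
  have h1 : TanS α κ Z := by
    rw [← h𝔤]
    have h2 : Z = (Z.2 / c) • ((fun s => isEmptyElim s, c) : Space ℚ_[ℓ] d) := by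
      refine huniq _ _ ?_
      show Z.2 = Z.2 / c * c
      rw [div_mul_cancel₀ _ hc]
    rw [h2]
    refine 𝔤.smul_mem _ ?_
    rw [h𝔤]
    exact ⟨σ, fun s => isEmptyElim s, hσ⟩
  refine ⟨fun _ => ?_, fun _ => h1⟩
  obtain ⟨f, hf⟩ : ∃ f : ℂ →ₗ[ℚ] ℚ, f 1 ≠ 0 := by
    by_contra hcon
    push Not at hcon
    exact one_ne_zero ((Module.forall_dual_apply_eq_zero_iff ℚ (1 : ℂ)).1 hcon)
  have h3 := generator (ℓ := ℓ) (hull_coord (z := ((hA, (1 : ℂ)) : Space ℂ d)) f)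
  have h4 : Z = (Z.2 / ((f 1 : ℚ) : ℚ_[ℓ])) •
      mapS (algebraMap ℚ ℚ_[ℓ]) (mapS f ((hA, (1 : ℂ)) : Space ℂ d)) := by
    refine huniq _ _ ?_
    show Z.2 = Z.2 / ((f 1 : ℚ) : ℚ_[ℓ]) * algebraMap ℚ ℚ_[ℓ] (f 1)
    rw [eq_ratCast, div_mul_cancel₀ _ (by exact_mod_cast hf)]
  rw [h4]
  exact Submodule.smul_mem _ _ h3

end alone

section
variable {K : Type} [Field K] [NumberField K] {ι : Type} [Fintype ι] [DecidableEq ι] {N w : ι → ℕ}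
  {S : Set (HeightOneSpectrum (𝓞 K))} {P : ι → HeightOneSpectrum (𝓞 K) → ℚ[X]} {kd : ι → Kind}

/-- the inverse cyclotomic character has a nonzero tangent vector -/
theorem kappa_tan (hS : S.Finite) (ℓ : ℕ) [hℓ : Fact ℓ.Prime] (κ : GK K →* ℚ_[ℓ])
    (hκc : Continuous κ)
    (hκ : ∀ v ∉ S, (ℓ : 𝓞 K) ∉ v.asIdeal → ∀ σ : GK K, IsFrobenius v σ →
      κ σ⁻¹ = (Ideal.absNorm v.asIdeal : ℚ_[ℓ])) :
    ∃ (c : ℚ_[ℓ]) (σ : ℕ → GK K), c ≠ 0 ∧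
      Tendsto (fun m : ℕ => ((ℓ : ℚ_[ℓ]) ^ m)⁻¹ * (κ (σ m) - 1)) atTop (𝓝 c) := by
  have hchi : Continuous (chi κ) := continuous_pi fun _ => continuous_pi fun _ => hκc
  obtain ⟨v, hv, φ, hφ, -⟩ := Pool.Agent.Y405.ZO.t K Set.univ isOpen_univ ⟨1, trivial⟩
    (S ∪ {v : HeightOneSpectrum (𝓞 K) | (ℓ : 𝓞 K) ∈ v.asIdeal}) (finite_union hS ℓ hℓ.out)
  have hvS : v ∉ S := fun h => hv (Or.inl h)
  have hvℓ : (ℓ : 𝓞 K) ∉ v.asIdeal := fun h => hv (Or.inr h)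
  have hq := hκ v hvS hvℓ φ hφ
  obtain ⟨⟨U, hU, hnear⟩, hpow⟩ := Y497.ZO.pow ℓ 1 (GK K) (chi κ) hchi
  obtain ⟨n, hn, hnU⟩ := hpow U hU φ⁻¹
  obtain ⟨⟨X, ⟨σ, hσ⟩, hX0⟩, -⟩ := Y497.ZO.log ℓ 1 (GK K) (chi κ) (φ⁻¹ ^ n) (hnear _ hnU)
  refine ⟨X 0 0, σ, ?_, ?_⟩
  · intro h0
    have h1 : X = 0 := by
      ext p q
      rw [Subsingleton.elim p 0, Subsingleton.elim q 0, h0]
      rfl
    have h2 := (hX0 1).1 (by rw [h1, zero_mulVec])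
    have h3 := congrFun h2 0
    have h4 : (chi κ (φ⁻¹ ^ n) *ᵥ (1 : Fin 1 → ℚ_[ℓ])) 0 = κ (φ⁻¹ ^ n) := by
      rw [mulVec, dotProduct, Fin.sum_univ_one, Pi.one_apply, mul_one]
      rfl
    rw [h4, map_pow, hq] at h3
    have h5 : (Ideal.absNorm v.asIdeal : ℚ_[ℓ]) ^ n = 1 := h3
    have h6 : (Ideal.absNorm v.asIdeal) ^ n = 1 := by exact_mod_cast h5
    have h7 : Ideal.absNorm v.asIdeal = 1 := (Nat.pow_eq_one.1 h6).resolve_right hn.ne'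
    rw [Ideal.absNorm_eq_one_iff] at h7
    exact v.isPrime.ne_top h7
  · have h1 : X = (Matrix.of fun _ _ => X 0 0 : Matrix (Fin 1) (Fin 1) ℚ_[ℓ]) := by
      ext p q
      rw [Subsingleton.elim p 0, Subsingleton.elim q 0]
      rfl
    rw [h1] at hσ
    exact chi_tan.1 hσ

/-- the conclusion of the main theorem -/
def Concl (J : ∀ i, Matrix (Fin (N i)) (Fin (N i)) ℚ) (ℓ : ℕ) [Fact ℓ.Prime]
    (κ : GK K →* ℚ_[ℓ]) (ρ : ∀ i, GK K →* Matrix (Fin (N i)) (Fin (N i)) ℚ_[ℓ])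
    (h : ∀ i, Matrix (Fin (N i)) (Fin (N i)) ℂ) : Prop :=
  MTC ρ κ h ∧ ∀ (ι' : Type) [Fintype ι'] (d : ι' → ℕ)
    (α : ∀ s, GK K →* Matrix (Fin (d s)) (Fin (d s)) ℚ_[ℓ])
    (hA : ∀ s, Matrix (Fin (d s)) (Fin (d s)) ℂ), (∀ s, Continuous (α s)) →
    (∀ s, (∀ i, Small (J i) (d s)) ∨
      ∃ U : Subgroup (GK K), IsOpen (U : Set (GK K)) ∧ ∀ σ ∈ U, ∀ τ ∈ U, α s σ * α s τ = α s τ * α s σ) →
    (MTC (joinR ρ α) κ (joinM h hA) ↔ MTC α κ hA)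

/-- **The Mumford-Tate conjecture for sums with arbitrary small or potentially abelian motives, for 100
percent of the primes and for all primes with semisimple representations with scalar commutants** -/
theorem main (hS : S.Finite) (J : ∀ i, Matrix (Fin (N i)) (Fin (N i)) ℚ)
    (hfit : ∀ i, Fits (kd i) (J i)) (hdet : ∀ i, (J i).det ≠ 0) (hw : ∀ i, (J i)ᵀ = J i → w i = 0)
    (κ : ∀ (ℓ : ℕ) [Fact ℓ.Prime], GK K →* ℚ_[ℓ]) (hκc : ∀ (ℓ : ℕ) [Fact ℓ.Prime], Continuous (κ ℓ))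
    (hκ : ∀ (ℓ : ℕ) [Fact ℓ.Prime], ∀ v ∉ S, (ℓ : 𝓞 K) ∉ v.asIdeal → ∀ σ : GK K, IsFrobenius v σ →
      κ ℓ σ⁻¹ = (Ideal.absNorm v.asIdeal : ℚ_[ℓ]))
    (ρ : ∀ (i : ι) (ℓ : ℕ) [Fact ℓ.Prime], GK K →* Matrix (Fin (N i)) (Fin (N i)) ℚ_[ℓ])
    (hρc : ∀ (i : ι) (ℓ : ℕ) [Fact ℓ.Prime], Continuous (ρ i ℓ))
    (hmult : ∀ (i : ι) (ℓ : ℕ) [Fact ℓ.Prime] (g : GK K),
      Sim (JL J ℓ i) (ρ i ℓ g) (κ ℓ g ^ w i))
    (hfrob : ∀ (i : ι) (ℓ : ℕ) [Fact ℓ.Prime], ∀ v ∉ S, (ℓ : 𝓞 K) ∉ v.asIdeal → ∀ σ : GK K,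
      IsFrobenius v σ → (ρ i ℓ σ⁻¹).charpoly = (P i v).map (algebraMap ℚ ℚ_[ℓ]))
    (h : ∀ i, Matrix (Fin (N i)) (Fin (N i)) ℂ) (hg : GenericW J w h)
    (ℓ₀ : ℕ) [hℓ₀ : Fact ℓ₀.Prime] (hal : ∀ i, Allows (kd i) (N i) ℓ₀ (JL J ℓ₀ i))
    (hfull : ∀ X, (∀ i, SpLie (JL J ℓ₀ i) (X i)) → JTan ℓ₀ (fun i => ρ i ℓ₀) X) :
    Y142.ZI.DensityZero {ℓ | ∃ _ : Fact ℓ.Prime, ¬ Concl J ℓ (κ ℓ) (fun i => ρ i ℓ) h} ∧
    ∀ (ℓ : ℕ) [Fact ℓ.Prime], (∀ i, SS (ρ i ℓ)) → (∀ i, SC (ρ i ℓ)) →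
      Concl J ℓ (κ ℓ) (fun i => ρ i ℓ) h := by
  have key : ∀ (ℓ : ℕ) [Fact ℓ.Prime],
      (∀ X, (∀ i, SpLie (JL J ℓ i) (X i)) → JTan ℓ (fun i => ρ i ℓ) X) →
      Concl J ℓ (κ ℓ) (fun i => ρ i ℓ) h := by
    intro ℓ _ hX
    have hdetL : ∀ (i : ι), (JL J ℓ i).det ≠ 0 := fun i =>
      det_map_ne (algebraMap ℚ ℚ_[ℓ]) (hdet i)
    have hfitL : ∀ (i : ι), Fits (kd i) (JL J ℓ i) := fun i =>
      (hfit i).map (algebraMap ℚ ℚ_[ℓ])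
    have h2 : ∀ (ι' : Type) [Fintype ι'] (d : ι' → ℕ)
        (α : ∀ s, GK K →* Matrix (Fin (d s)) (Fin (d s)) ℚ_[ℓ])
        (hA : ∀ s, Matrix (Fin (d s)) (Fin (d s)) ℂ), (∀ s, Continuous (α s)) →
        (∀ s, (∀ i, Small (J i) (d s)) ∨
          ∃ U : Subgroup (GK K), IsOpen (U : Set (GK K)) ∧
            ∀ σ ∈ U, ∀ τ ∈ U, α s σ * α s τ = α s τ * α s σ) →
        (MTC (joinR (fun i => ρ i ℓ) α) (κ ℓ) (joinM h hA) ↔ MTC α (κ ℓ) hA) := by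
      intro ι' _ d α hA hα hsm
      classical
      exact mtc_iff (fun i => (hfit i).isForm (hdet i)) (fun i => (hfitL i).isForm (hdetL i))
        (fun i => hρc i ℓ) hα (hκc ℓ) (fun i g => hmult i ℓ g) hX hg hsm
    refine ⟨?_, h2⟩
    obtain ⟨c, σ, hc, hσ⟩ := kappa_tan hS ℓ (κ ℓ) (hκc ℓ) (hκ ℓ)
    have h3 : MTC (fun s : Empty => isEmptyElim s : ∀ s : Empty, GK K →* Matrix
        (Fin ((fun _ : Empty => 0) s)) (Fin ((fun _ : Empty => 0) s)) ℚ_[ℓ]) (κ ℓ)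
        (fun s : Empty => isEmptyElim s) := mtc_empty hc hσ
    exact mtc_remove ((h2 Empty (fun _ => 0) (fun s => isEmptyElim s) (fun s => isEmptyElim s)
      (fun s => isEmptyElim s) (fun s => isEmptyElim s)).2 h3)
  obtain ⟨h1, h2⟩ := full_of_one hS J hfit hdet hw κ hκ ρ hρc hmult hfrob ℓ₀ hal hfull
  refine ⟨h1.mono ?_, fun ℓ _ h3 h4 => key ℓ (h2 ℓ h3 h4)⟩
  rintro ℓ ⟨hp, hno⟩
  exact ⟨hp, fun h => hno (key ℓ h)⟩

end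

end Pool.Agent.U190.MT
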