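import Pool.Agent.U190.MT.Hodge
import Pool.Agent.U190.JS.Two

/-!
# The `ℓ`-adic Lie algebra of a full family and a small or potentially commutative family
-/

set_option autoImplicit false
set_option linter.unusedSectionVars false
set_option linter.style.haveILetI false

open Matrix Filter Topology
open Pool.Agent.Y142.ZO Pool.Agent.Y142.ZI Pool.Agent.Y142.ZS Pool.Agent.R932.PO Pool.Agent.U190.JS

namespace Pool.Agent.U190.MT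

section one
variable {ℓ : ℕ} [hℓ : Fact ℓ.Prime] {X : Type} [Fintype X] {n : X → ℕ} {G : Type} [Group G]

/-- the family and the number are in the Lie algebra of the image of `G` -/
def TanS (ρ : ∀ x, G →* Matrix (Fin (n x)) (Fin (n x)) ℚ_[ℓ]) (κ : G →* ℚ_[ℓ])
    (Z : Space ℚ_[ℓ] n) : Prop :=
  ∃ σ : ℕ → G,
    (∀ x, Tendsto (fun m : ℕ => ((ℓ : ℚ_[ℓ]) ^ m)⁻¹ • (ρ x (σ m) - 1)) atTop (𝓝 (Z.1 x))) ∧
    Tendsto (fun m : ℕ => ((ℓ : ℚ_[ℓ]) ^ m)⁻¹ * (κ (σ m) - 1)) atTop (𝓝 Z.2)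

/-- the representations and the character as one family -/
noncomputable def withK (ρ : ∀ x, G →* Matrix (Fin (n x)) (Fin (n x)) ℚ_[ℓ]) (κ : G →* ℚ_[ℓ]) :
    ∀ x : Option X, G →* Matrix (Fin (dO n x)) (Fin (dO n x)) ℚ_[ℓ] := fun x =>
  match x with
  | none => chi κ
  | some x => ρ x

/-- the family of matrices and the number as one family of matrices -/
def optM {F : Type} [Field F] (Z : Space F n) :
    ∀ x : Option X, Matrix (Fin (dO n x)) (Fin (dO n x)) F := fun x =>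
  match x with
  | none => (Matrix.of fun _ _ => Z.2 : Matrix (Fin 1) (Fin 1) F)
  | some x => Z.1 x

theorem chi_tan {κ : G →* ℚ_[ℓ]} {σ : ℕ → G} {c : ℚ_[ℓ]} :
    Tendsto (fun m : ℕ => ((ℓ : ℚ_[ℓ]) ^ m)⁻¹ • (chi κ (σ m) - 1)) atTop
      (𝓝 (Matrix.of fun _ _ => c : Matrix (Fin 1) (Fin 1) ℚ_[ℓ])) ↔
    Tendsto (fun m : ℕ => ((ℓ : ℚ_[ℓ]) ^ m)⁻¹ * (κ (σ m) - 1)) atTop (𝓝 c) := by
  constructor
  · intro h
    have h3 := (tendsto_pi_nhds.1 ((tendsto_pi_nhds.1 h) 0)) 0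
    refine h3.congr fun m => ?_
    show ((ℓ : ℚ_[ℓ]) ^ m)⁻¹ • (κ (σ m) - (1 : Matrix (Fin 1) (Fin 1) ℚ_[ℓ]) 0 0) = _
    rw [one_apply_eq, smul_eq_mul]
  · intro h
    refine tendsto_pi_nhds.2 fun p => tendsto_pi_nhds.2 fun q => ?_
    refine h.congr fun m => ?_
    show _ = ((ℓ : ℚ_[ℓ]) ^ m)⁻¹ • (κ (σ m) - (1 : Matrix (Fin 1) (Fin 1) ℚ_[ℓ]) p q)
    rw [Subsingleton.elim p q, one_apply_eq, smul_eq_mul]

theorem tanS_iff {ρ : ∀ x, G →* Matrix (Fin (n x)) (Fin (n x)) ℚ_[ℓ]} {κ : G →* ℚ_[ℓ]}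
    {Z : Space ℚ_[ℓ] n} : TanS ρ κ Z ↔ JTan ℓ (withK ρ κ) (optM Z) := by
  constructor
  · rintro ⟨σ, h1, h2⟩
    refine ⟨σ, fun x => ?_⟩
    cases x with
    | none => exact chi_tan.2 h2
    | some x => exact h1 x
  · rintro ⟨σ, h⟩
    exact ⟨σ, fun x => h (some x), chi_tan.1 (h none)⟩

/-- the tangent vectors as a subspace -/
theorem exists_tanSub (ρ : ∀ x, G →* Matrix (Fin (n x)) (Fin (n x)) ℚ_[ℓ]) (κ : G →* ℚ_[ℓ]) :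
    ∃ 𝔤 : Submodule ℚ_[ℓ] (Space ℚ_[ℓ] n), ∀ Z, Z ∈ 𝔤 ↔ TanS ρ κ Z := by
  obtain ⟨𝔤, h𝔤, -, -⟩ := jlie ℓ (Option X) (dO n) G (withK ρ κ)
  let Φ : Space ℚ_[ℓ] n →ₗ[ℚ_[ℓ]] (∀ x : Option X, Matrix (Fin (dO n x)) (Fin (dO n x)) ℚ_[ℓ]) :=
    { toFun := optM
      map_add' := by
        intro Z W
        funext x
        cases x <;> rfl
      map_smul' := by
        intro c Z
        funext x
        cases x <;> rfl }
  refine ⟨𝔤.comap Φ, fun Z => ?_⟩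
  rw [tanS_iff, ← h𝔤]
  rfl

end one

section joint
variable {ℓ : ℕ} [hℓ : Fact ℓ.Prime] {ι ι' : Type} [Fintype ι] [DecidableEq ι] [Fintype ι']
  [DecidableEq ι'] {N w : ι → ℕ} {d : ι' → ℕ}
  {G : Type} [Group G] [TopologicalSpace G] [IsTopologicalGroup G] [CompactSpace G]
  {ρ : ∀ i, G →* Matrix (Fin (N i)) (Fin (N i)) ℚ_[ℓ]}
  {α : ∀ s, G →* Matrix (Fin (d s)) (Fin (d s)) ℚ_[ℓ]} {κ : G →* ℚ_[ℓ]}

/-- two families of representations as one family -/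
def joinR (ρ : ∀ i, G →* Matrix (Fin (N i)) (Fin (N i)) ℚ_[ℓ])
    (α : ∀ s, G →* Matrix (Fin (d s)) (Fin (d s)) ℚ_[ℓ]) :
    ∀ x : ι ⊕ ι', G →* Matrix (Fin (Sum.elim N d x)) (Fin (Sum.elim N d x)) ℚ_[ℓ] := fun x =>
  match x with
  | Sum.inl i => ρ i
  | Sum.inr s => α s

theorem tan_pr {Z : Space ℚ_[ℓ] (Sum.elim N d)} (h : TanS (joinR ρ α) κ Z) :
    TanS α κ (prS ℚ_[ℓ] N d Z) := by
  obtain ⟨σ, h1, h2⟩ := h
  exact ⟨σ, fun s => h1 (Sum.inr s), h2⟩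

/-- the relation between the tangent vectors of a similitude representation and of the multiplier -/
theorem tan_sim {M w : ℕ} {ρ : G →* Matrix (Fin M) (Fin M) ℚ_[ℓ]} {J : Matrix (Fin M) (Fin M) ℚ_[ℓ]}
    (hmult : ∀ g, Sim J (ρ g) (κ g ^ w)) {σ : ℕ → G} {X : Matrix (Fin M) (Fin M) ℚ_[ℓ]} {c : ℚ_[ℓ]}
    (h1 : Tendsto (fun m : ℕ => ((ℓ : ℚ_[ℓ]) ^ m)⁻¹ • (ρ (σ m) - 1)) atTop (𝓝 X))
    (h2 : Tendsto (fun m : ℕ => ((ℓ : ℚ_[ℓ]) ^ m)⁻¹ * (κ (σ m) - 1)) atTop (𝓝 c)) :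
    SpLie J (X - ((w : ℚ_[ℓ]) / 2 * c) • (1 : Matrix (Fin M) (Fin M) ℚ_[ℓ])) := by
  haveI : T2Space (Matrix (Fin M) (Fin M) ℚ_[ℓ]) :=
    inferInstanceAs (T2Space (Fin M → Fin M → ℚ_[ℓ]))
  have hℓ1 : ‖(ℓ : ℚ_[ℓ])‖ < 1 := Padic.norm_p_lt_one
  have hp : Tendsto (fun m : ℕ => (ℓ : ℚ_[ℓ]) ^ m) atTop (𝓝 0) :=
    tendsto_pow_atTop_nhds_zero_of_norm_lt_one hℓ1
  have hp0 : ∀ m : ℕ, (ℓ : ℚ_[ℓ]) ^ m ≠ 0 := fun m => pow_ne_zero _ (by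
    exact_mod_cast (Fact.out : ℓ.Prime).ne_zero)
  have hκ1 : Tendsto (fun m => κ (σ m)) atTop (𝓝 1) := by
    have h4 := (hp.mul h2).add_const 1
    rw [zero_mul, zero_add] at h4
    refine h4.congr fun m => ?_
    rw [← mul_assoc, mul_inv_cancel₀ (hp0 m), one_mul, sub_add_cancel]
  -- the left-hand side
  have hL : Tendsto (fun m : ℕ => (((ℓ : ℚ_[ℓ]) ^ m)⁻¹ • (ρ (σ m) - 1))ᵀ * J +
      J * (((ℓ : ℚ_[ℓ]) ^ m)⁻¹ • (ρ (σ m) - 1)) + (ℓ : ℚ_[ℓ]) ^ m •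
      ((((ℓ : ℚ_[ℓ]) ^ m)⁻¹ • (ρ (σ m) - 1))ᵀ * J * (((ℓ : ℚ_[ℓ]) ^ m)⁻¹ • (ρ (σ m) - 1)))) atTop
      (𝓝 (Xᵀ * J + J * X + (0 : ℚ_[ℓ]) • (Xᵀ * J * X))) := by
    have hT : Tendsto (fun m : ℕ => (((ℓ : ℚ_[ℓ]) ^ m)⁻¹ • (ρ (σ m) - 1))ᵀ) atTop (𝓝 Xᵀ) :=
      ((Continuous.matrix_transpose continuous_id).tendsto X).comp h1
    have hTJ := hT.mul (tendsto_const_nhds (x := J))
    have hJ1 := (tendsto_const_nhds (x := J)).mul h1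
    exact (hTJ.add hJ1).add (hp.smul (hTJ.mul h1))
  have hR : Tendsto (fun m : ℕ => ((∑ i ∈ Finset.range w, κ (σ m) ^ i) *
      (((ℓ : ℚ_[ℓ]) ^ m)⁻¹ * (κ (σ m) - 1))) • J) atTop
      (𝓝 (((∑ i ∈ Finset.range w, (1 : ℚ_[ℓ]) ^ i) * c) • J)) :=
    Tendsto.smul_const ((tendsto_finsetSum _ fun i _ => hκ1.pow i).mul h2) J
  have hEq : ∀ m : ℕ, (((ℓ : ℚ_[ℓ]) ^ m)⁻¹ • (ρ (σ m) - 1))ᵀ * J +
      J * (((ℓ : ℚ_[ℓ]) ^ m)⁻¹ • (ρ (σ m) - 1)) + (ℓ : ℚ_[ℓ]) ^ m •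
      ((((ℓ : ℚ_[ℓ]) ^ m)⁻¹ • (ρ (σ m) - 1))ᵀ * J * (((ℓ : ℚ_[ℓ]) ^ m)⁻¹ • (ρ (σ m) - 1))) =
      ((∑ i ∈ Finset.range w, κ (σ m) ^ i) * (((ℓ : ℚ_[ℓ]) ^ m)⁻¹ * (κ (σ m) - 1))) • J := by
    intro m
    have h3 : (ρ (σ m))ᵀ * J * ρ (σ m) = κ (σ m) ^ w • J := hmult (σ m)
    have h4 := geom_sum_mul (κ (σ m)) w
    have h5 : (∑ i ∈ Finset.range w, κ (σ m) ^ i) * (((ℓ : ℚ_[ℓ]) ^ m)⁻¹ * (κ (σ m) - 1)) =
        ((ℓ : ℚ_[ℓ]) ^ m)⁻¹ * (κ (σ m) ^ w - 1) := by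
      rw [← h4]
      ring
    rw [h5, mul_smul, sub_smul, one_smul, ← h3, transpose_smul, transpose_sub, transpose_one,
      smul_mul_assoc, mul_smul_comm, smul_mul_assoc, mul_smul_comm, smul_smul, smul_smul,
      mul_inv_cancel₀ (hp0 m), one_mul, ← smul_add, ← smul_add]
    congr 1
    noncomm_ring
  have hlim := tendsto_nhds_unique (hL.congr hEq) hR
  rw [zero_smul, add_zero] at hlim
  simp only [one_pow, Finset.sum_const, Finset.card_range, nsmul_eq_mul, mul_one] at hlim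
  unfold SpLie
  rw [transpose_sub, transpose_smul, transpose_one, sub_mul, mul_sub, smul_mul_assoc, one_mul,
    mul_smul_comm, mul_one]
  have h6 : Xᵀ * J - ((w : ℚ_[ℓ]) / 2 * c) • J + (J * X - ((w : ℚ_[ℓ]) / 2 * c) • J) =
      (Xᵀ * J + J * X) - (((w : ℚ_[ℓ]) / 2 * c) • J + ((w : ℚ_[ℓ]) / 2 * c) • J) := by abel
  rw [h6, hlim, ← add_smul, sub_eq_zero]
  congr 1
  ring

/-- **The `ℓ`-adic Lie algebra of the joint system is as large as possible.** -/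
theorem tan_iff {J : ∀ i, Matrix (Fin (N i)) (Fin (N i)) ℚ_[ℓ]} (hJ : ∀ i, IsForm (J i))
    (hρ : ∀ i, Continuous (ρ i)) (hα : ∀ s, Continuous (α s)) (hκ : Continuous κ)
    (hmult : ∀ i g, Sim (J i) (ρ i g) (κ g ^ w i))
    (hfull : ∀ X, (∀ i, SpLie (J i) (X i)) → JTan ℓ ρ X) (hweak : ∀ s, Weak ℓ J (α s))
    (Z : Space ℚ_[ℓ] (Sum.elim N d)) :
    TanS (joinR ρ α) κ Z ↔
      (∀ i, SpLie (J i) (cenL w N d i Z)) ∧ TanS α κ (prS ℚ_[ℓ] N d Z) := by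
  have hfirst : ∀ Z : Space ℚ_[ℓ] (Sum.elim N d), TanS (joinR ρ α) κ Z →
      ∀ i, SpLie (J i) (cenL w N d i Z) := by
    rintro Z ⟨σ, h1, h2⟩ i
    exact tan_sim (hmult i) (h1 (Sum.inl i)) h2
  refine ⟨fun h => ⟨hfirst Z h, tan_pr h⟩, ?_⟩
  rintro ⟨h1, h2⟩
  have hchi : Continuous (chi κ) :=
    continuous_pi fun _ => continuous_pi fun _ => hκ
  have hα' : ∀ x, Continuous (withK α κ x) := by
    intro x
    cases x with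
    | none => exact hchi
    | some s => exact hα s
  have hw' : ∀ x, Weak ℓ J (withK α κ x) := by
    intro x
    cases x with
    | none =>
      refine Or.inr ⟨⊤, isOpen_univ, fun σ _ τ _ => ?_⟩
      show chi κ σ * chi κ τ = chi κ τ * chi κ σ
      rw [← map_mul, ← map_mul]
      ext p q
      show κ (σ * τ) = κ (τ * σ)
      rw [map_mul, map_mul, mul_comm]
    | some s => exact hweak s
  obtain ⟨X', σ, h3, h4⟩ := lift hα' hρ (tanS_iff.1 h2)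
  let Z' : Space ℚ_[ℓ] (Sum.elim N d) := (joinM X' (prS ℚ_[ℓ] N d Z).1, Z.2)
  have hZ' : TanS (joinR ρ α) κ Z' := by
    refine ⟨σ, fun x => ?_, chi_tan.1 (h3 none)⟩
    cases x with
    | inl i => exact h4 i
    | inr s => exact h3 (some s)
  have h5 := hfirst Z' hZ'
  have h6 : ∀ i, SpLie (J i) (cenL w N d i Z - cenL w N d i Z') := fun i =>
    (spSub (J i)).sub_mem (h1 i) (h5 i)
  obtain ⟨τ, h7, h8⟩ := indep hJ hρ hα' hfull hw' h6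
  let Z'' : Space ℚ_[ℓ] (Sum.elim N d) :=
    (joinM (fun i => cenL w N d i Z - cenL w N d i Z') 0, 0)
  have hZ'' : TanS (joinR ρ α) κ Z'' := by
    refine ⟨τ, fun x => ?_, chi_tan.1 ?_⟩
    · cases x with
      | inl i => exact h7 i
      | inr s => exact h8 (some s)
    · exact h8 none
  obtain ⟨𝔤, h𝔤⟩ := exists_tanSub (joinR ρ α) κ
  have h9 : Z = Z' + Z'' := by
    refine Prod.ext ?_ ?_
    · funext x
      cases x with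
      | inl i =>
        show pL Z i = X' i + ((pL Z i - ((w i : ℚ_[ℓ]) / 2 * Z.2) •
          (1 : Matrix (Fin (N i)) (Fin (N i)) ℚ_[ℓ])) - (X' i - ((w i : ℚ_[ℓ]) / 2 * Z.2) •
          (1 : Matrix (Fin (N i)) (Fin (N i)) ℚ_[ℓ])))
        abel
      | inr s =>
        show (prS ℚ_[ℓ] N d Z).1 s = (prS ℚ_[ℓ] N d Z).1 s + 0
        rw [add_zero]
    · show Z.2 = Z.2 + 0
      rw [add_zero]
  rw [h9, ← h𝔤]
  exact 𝔤.add_mem ((h𝔤 _).2 hZ') ((h𝔤 _).2 hZ'')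

end joint

end Pool.Agent.U190.MT
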