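import Pool.Agent.U190.MT.Hull
import Pool.Agent.U190.JS.Alg

/-!
# The rational Lie algebra of a generic family and a small or commutative family
-/

set_option autoImplicit false
set_option linter.unusedSectionVars false

open Matrix
open Pool.Agent.Y142.ZO Pool.Agent.Y142.ZI Pool.Agent.Y142.ZS Pool.Agent.R932.PO Pool.Agent.U190.JS

namespace Pool.Agent.U190.MT

section
variable {k₀ K : Type} [Field k₀] [CharZero k₀] [Field K] [Algebra k₀ K] {ι ι' : Type} [Fintype ι]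
  [DecidableEq ι] [Fintype ι'] [DecidableEq ι'] {N w : ι → ℕ} {d : ι' → ℕ}
  {J : ∀ i, Matrix (Fin (N i)) (Fin (N i)) k₀}

/-- families over the larger field are combinations of rational families -/
theorem fam_ext {𝔞 : Submodule k₀ (∀ i, Matrix (Fin (N i)) (Fin (N i)) k₀)}
    {h : ∀ i, Matrix (Fin (N i)) (Fin (N i)) K}
    (hc : ∀ f : K →ₗ[k₀] k₀, (fun i => (h i).map f) ∈ 𝔞) :
    h ∈ Submodule.span K {Z : ∀ i, Matrix (Fin (N i)) (Fin (N i)) K |
      ∃ X ∈ 𝔞, Z = fun i => (X i).map (algebraMap k₀ K)} := by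
  classical
  have h2 := span_rat (k₀ := k₀) (K := K) (R := Σ i, Fin (N i) × Fin (N i))
    (fun r => h r.1 r.2.1 r.2.2)
    (fun x => (fun i => Matrix.of fun p q => x ⟨i, (p, q)⟩) ∈ 𝔞) hc
  let Λ : ((Σ i, Fin (N i) × Fin (N i)) → K) →ₗ[K] (∀ i, Matrix (Fin (N i)) (Fin (N i)) K) :=
    { toFun := fun x i => Matrix.of fun p q => x ⟨i, (p, q)⟩
      map_add' := fun x y => rfl
      map_smul' := fun c x => rfl }
  have h3 : h = Λ (fun r => h r.1 r.2.1 r.2.2) := rfl
  rw [h3]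
  have h4 := Submodule.mem_map_of_mem (f := Λ) h2
  rw [Submodule.map_span] at h4
  refine Submodule.span_mono ?_ h4
  rintro _ ⟨_, ⟨T₀, hT₀, rfl⟩, rfl⟩
  exact ⟨_, hT₀, rfl⟩

/-- the operators `h i - w i / 2` -/
def cen (w : ι → ℕ) (h : ∀ i, Matrix (Fin (N i)) (Fin (N i)) K) :
    ∀ i, Matrix (Fin (N i)) (Fin (N i)) K :=
  fun i => h i - ((w i : K) / 2) • (1 : Matrix (Fin (N i)) (Fin (N i)) K)

/-- the operators `h i - w i / 2` are in the Lie algebras of the forms, and every rational Lie algebra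
whose extension of scalars contains this family contains the Lie algebras of the forms -/
def GenericW (J : ∀ i, Matrix (Fin (N i)) (Fin (N i)) k₀) (w : ι → ℕ)
    (h : ∀ i, Matrix (Fin (N i)) (Fin (N i)) K) : Prop :=
  (∀ i, SpLie ((J i).map (algebraMap k₀ K)) (cen w h i)) ∧
  ∀ 𝔞 : Submodule k₀ (∀ i, Matrix (Fin (N i)) (Fin (N i)) k₀),
    (∀ X ∈ 𝔞, ∀ Y ∈ 𝔞, (fun i => X i * Y i - Y i * X i) ∈ 𝔞) →
    cen w h ∈ Submodule.span K {Z : ∀ i, Matrix (Fin (N i)) (Fin (N i)) K |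
      ∃ X ∈ 𝔞, Z = fun i => (X i).map (algebraMap k₀ K)} →
    ∀ X, (∀ i, SpLie (J i) (X i)) → X ∈ 𝔞

/-- the component at the form `i` -/
def pL (Z : Space k₀ (Sum.elim N d)) (i : ι) : Matrix (Fin (N i)) (Fin (N i)) k₀ := Z.1 (Sum.inl i)

/-- the component at the form `i`, centered -/
def cenL (w : ι → ℕ) (N : ι → ℕ) (d : ι' → ℕ) (i : ι) :
    Space k₀ (Sum.elim N d) →ₗ[k₀] Matrix (Fin (N i)) (Fin (N i)) k₀ where
  toFun Z := pL Z i - ((w i : k₀) / 2 * Z.2) • (1 : Matrix (Fin (N i)) (Fin (N i)) k₀)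
  map_add' Z W := by
    show pL Z i + pL W i - ((w i : k₀) / 2 * (Z.2 + W.2)) •
        (1 : Matrix (Fin (N i)) (Fin (N i)) k₀) =
      pL Z i - ((w i : k₀) / 2 * Z.2) • (1 : Matrix (Fin (N i)) (Fin (N i)) k₀) +
        (pL W i - ((w i : k₀) / 2 * W.2) • (1 : Matrix (Fin (N i)) (Fin (N i)) k₀))
    rw [mul_add, add_smul]
    abel
  map_smul' c Z := by
    show c • pL Z i - ((w i : k₀) / 2 * (c * Z.2)) • (1 : Matrix (Fin (N i)) (Fin (N i)) k₀) =
      c • (pL Z i - ((w i : k₀) / 2 * Z.2) • (1 : Matrix (Fin (N i)) (Fin (N i)) k₀))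
    rw [smul_sub, smul_smul, mul_left_comm]

theorem cenL_com (Z W : Space k₀ (Sum.elim N d)) (i : ι) :
    cenL w N d i (com Z W) = cenL w N d i Z * cenL w N d i W - cenL w N d i W * cenL w N d i Z := by
  show pL Z i * pL W i - pL W i * pL Z i -
      ((w i : k₀) / 2 * 0) • (1 : Matrix (Fin (N i)) (Fin (N i)) k₀) =
    (pL Z i - ((w i : k₀) / 2 * Z.2) • (1 : Matrix (Fin (N i)) (Fin (N i)) k₀)) *
      (pL W i - ((w i : k₀) / 2 * W.2) • (1 : Matrix (Fin (N i)) (Fin (N i)) k₀)) -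
    (pL W i - ((w i : k₀) / 2 * W.2) • (1 : Matrix (Fin (N i)) (Fin (N i)) k₀)) *
      (pL Z i - ((w i : k₀) / 2 * Z.2) • (1 : Matrix (Fin (N i)) (Fin (N i)) k₀))
  rw [mul_zero, zero_smul, sub_zero, sub_mul, sub_mul, mul_sub, mul_sub, mul_sub, mul_sub,
    smul_mul_assoc, smul_mul_assoc, smul_mul_assoc, smul_mul_assoc, mul_smul_comm, mul_smul_comm,
    mul_smul_comm, mul_smul_comm, one_mul, one_mul, mul_one, mul_one,
    smul_comm ((w i : k₀) / 2 * Z.2) ((w i : k₀) / 2 * W.2)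
      (1 : Matrix (Fin (N i)) (Fin (N i)) k₀), one_mul]
  abel

/-- the condition on an element of the Lie algebra of the joint system -/
def Big (J : ∀ i, Matrix (Fin (N i)) (Fin (N i)) k₀) (w : ι → ℕ) (𝔟 : Submodule k₀ (Space k₀ d)) :
    Submodule k₀ (Space k₀ (Sum.elim N d)) :=
  (⨅ i, (spSub (J i)).comap (cenL w N d i)) ⊓ 𝔟.comap (prS k₀ N d)

theorem mem_big {𝔟 : Submodule k₀ (Space k₀ d)} {Z : Space k₀ (Sum.elim N d)} :
    Z ∈ Big J w 𝔟 ↔ (∀ i, SpLie (J i) (cenL w N d i Z)) ∧ prS k₀ N d Z ∈ 𝔟 := by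
  unfold Big
  rw [Submodule.mem_inf, Submodule.mem_iInf]
  rfl

theorem cen_map {h : ∀ i, Matrix (Fin (N i)) (Fin (N i)) K}
    {hA : ∀ s, Matrix (Fin (d s)) (Fin (d s)) K} (f : K →ₗ[k₀] k₀) (i : ι) :
    cenL w N d i (mapS f ((joinM h hA, (1 : K)) : Space K (Sum.elim N d))) = (cen w h i).map f := by
  have hK : CharZero K := charZero_of_injective_algebraMap (algebraMap k₀ K).injective
  ext p q
  show f (h i p q) - (((w i : k₀) / 2 * f 1) • (1 : Matrix (Fin (N i)) (Fin (N i)) k₀)) p q =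
    f (h i p q - (((w i : K) / 2) • (1 : Matrix (Fin (N i)) (Fin (N i)) K)) p q)
  rw [map_sub]
  congr 1
  have h1 : ((w i : K) / 2) = algebraMap k₀ K ((w i : k₀) / 2) := by
    rw [map_div₀, map_natCast, map_ofNat]
  rw [Matrix.smul_apply, Matrix.smul_apply, h1, smul_eq_mul, smul_eq_mul, ← Algebra.smul_def,
    map_smul, smul_eq_mul]
  by_cases hpq : p = q
  · subst hpq
    rw [Matrix.one_apply_eq, Matrix.one_apply_eq, mul_one]
  · rw [Matrix.one_apply_ne hpq, Matrix.one_apply_ne hpq, map_zero, mul_zero, mul_zero]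

theorem hull_le_big {h : ∀ i, Matrix (Fin (N i)) (Fin (N i)) K}
    {hA : ∀ s, Matrix (Fin (d s)) (Fin (d s)) K}
    (hg : ∀ i, SpLie ((J i).map (algebraMap k₀ K)) (cen w h i)) :
    hull k₀ ((joinM h hA, (1 : K)) : Space K (Sum.elim N d)) ≤
      Big J w (hull k₀ ((hA, (1 : K)) : Space K d)) := by
  refine hull_le ?_ fun f => ?_
  · intro Z hZ W hW
    rw [mem_big] at hZ hW ⊢
    refine ⟨fun i => ?_, ?_⟩
    · rw [cenL_com]
      exact br_sp (hZ.1 i) (hW.1 i)
    · exact hull_com _ hZ.2 _ hW.2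
  · rw [mem_big]
    refine ⟨fun i => ?_, ?_⟩
    · rw [cen_map]
      exact spLie_coord f (hg i)
    · exact hull_coord (z := ((hA, (1 : K)) : Space K d)) f

/-- the sizes of the second family, and a matrix with one entry for the number -/
def dO (d : ι' → ℕ) : Option ι' → ℕ := fun x => x.elim 1 d

/-- the entry of the matrix with one entry -/
def nO (Z : Fam k₀ N (dO d)) : k₀ := (show Matrix (Fin 1) (Fin 1) k₀ from Z.2 none) 0 0

/-- the centered families as families of matrices and numbers -/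
def Psi (w : ι → ℕ) (N : ι → ℕ) (d : ι' → ℕ) :
    Fam k₀ N (dO d) →ₗ[k₀] Space k₀ (Sum.elim N d) where
  toFun Z := (joinM (fun i => Z.1 i + ((w i : k₀) / 2 * nO Z) •
      (1 : Matrix (Fin (N i)) (Fin (N i)) k₀)) (fun s => Z.2 (some s)), nO Z)
  map_add' Z W := by
    refine Prod.ext ?_ rfl
    funext x
    cases x with
    | inl i =>
      show Z.1 i + W.1 i + ((w i : k₀) / 2 * (nO Z + nO W)) •
          (1 : Matrix (Fin (N i)) (Fin (N i)) k₀) =
        (Z.1 i + ((w i : k₀) / 2 * nO Z) • (1 : Matrix (Fin (N i)) (Fin (N i)) k₀)) +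
        (W.1 i + ((w i : k₀) / 2 * nO W) • (1 : Matrix (Fin (N i)) (Fin (N i)) k₀))
      rw [mul_add, add_smul]
      abel
    | inr s => rfl
  map_smul' c Z := by
    refine Prod.ext ?_ rfl
    funext x
    cases x with
    | inl i =>
      show c • Z.1 i + ((w i : k₀) / 2 * (c * nO Z)) • (1 : Matrix (Fin (N i)) (Fin (N i)) k₀) =
        c • (Z.1 i + ((w i : k₀) / 2 * nO Z) • (1 : Matrix (Fin (N i)) (Fin (N i)) k₀))
      rw [smul_add, smul_smul, mul_left_comm]
    | inr s => rfl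

theorem one_comm (A B : Matrix (Fin 1) (Fin 1) k₀) : A * B = B * A := by
  ext p q
  rw [Matrix.mul_apply, Matrix.mul_apply, Fin.sum_univ_one, Fin.sum_univ_one,
    Subsingleton.elim p 0, Subsingleton.elim q 0, mul_comm]

theorem psi_cen (Z : Fam k₀ N (dO d)) (i : ι) : cenL w N d i (Psi w N d Z) = Z.1 i := by
  show Z.1 i + ((w i : k₀) / 2 * nO Z) • (1 : Matrix (Fin (N i)) (Fin (N i)) k₀) -
    ((w i : k₀) / 2 * nO Z) • (1 : Matrix (Fin (N i)) (Fin (N i)) k₀) = Z.1 i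
  rw [add_sub_cancel_right]

theorem nO_br (Z W : Fam k₀ N (dO d)) : nO (br Z W) = 0 := by
  have h0 : ((show Matrix (Fin 1) (Fin 1) k₀ from Z.2 none) *
      (show Matrix (Fin 1) (Fin 1) k₀ from W.2 none) -
      (show Matrix (Fin 1) (Fin 1) k₀ from W.2 none) *
      (show Matrix (Fin 1) (Fin 1) k₀ from Z.2 none)) 0 0 = 0 := by
    rw [one_comm, sub_self]
    rfl
  exact h0

theorem psi_br (Z W : Fam k₀ N (dO d)) : Psi w N d (br Z W) = com (Psi w N d Z) (Psi w N d W) := by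
  refine Prod.ext ?_ (nO_br Z W)
  funext x
  cases x with
  | inl i =>
    show Z.1 i * W.1 i - W.1 i * Z.1 i + ((w i : k₀) / 2 * nO (br Z W)) •
        (1 : Matrix (Fin (N i)) (Fin (N i)) k₀) =
      (Z.1 i + ((w i : k₀) / 2 * nO Z) • (1 : Matrix (Fin (N i)) (Fin (N i)) k₀)) *
      (W.1 i + ((w i : k₀) / 2 * nO W) • (1 : Matrix (Fin (N i)) (Fin (N i)) k₀)) -
      (W.1 i + ((w i : k₀) / 2 * nO W) • (1 : Matrix (Fin (N i)) (Fin (N i)) k₀)) *
      (Z.1 i + ((w i : k₀) / 2 * nO Z) • (1 : Matrix (Fin (N i)) (Fin (N i)) k₀))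
    rw [nO_br, mul_zero, zero_smul, add_zero, add_mul, add_mul, mul_add, mul_add, mul_add, mul_add,
      smul_mul_assoc, smul_mul_assoc, smul_mul_assoc, smul_mul_assoc, mul_smul_comm, mul_smul_comm,
      mul_smul_comm, mul_smul_comm, one_mul, one_mul, mul_one, mul_one,
      smul_comm ((w i : k₀) / 2 * nO Z) ((w i : k₀) / 2 * nO W)
        (1 : Matrix (Fin (N i)) (Fin (N i)) k₀), one_mul]
    abel
  | inr s => rfl

/-- **The rational Lie algebra of the joint system is as large as possible.** -/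
theorem hull_eq_big {h : ∀ i, Matrix (Fin (N i)) (Fin (N i)) K}
    {hA : ∀ s, Matrix (Fin (d s)) (Fin (d s)) K} (hJ : ∀ i, IsForm (J i)) (hg : GenericW J w h)
    (hs : ∀ s, (∀ i, d s ^ 2 < Module.finrank k₀ (spSub (J i))) ∨
      ∀ Z ∈ hull k₀ ((hA, (1 : K)) : Space K d), ∀ W ∈ hull k₀ ((hA, (1 : K)) : Space K d),
        Z.1 s * W.1 s = W.1 s * Z.1 s) :
    hull k₀ ((joinM h hA, (1 : K)) : Space K (Sum.elim N d)) =
      Big J w (hull k₀ ((hA, (1 : K)) : Space K d)) := by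
  refine le_antisymm (hull_le_big hg.1) ?_
  set 𝔥 := hull k₀ ((joinM h hA, (1 : K)) : Space K (Sum.elim N d)) with h𝔥
  let 𝔥' : Submodule k₀ (Fam k₀ N (dO d)) := 𝔥.comap (Psi w N d)
  have hbr : ∀ Z ∈ 𝔥', ∀ W ∈ 𝔥', br Z W ∈ 𝔥' := by
    intro Z hZ W hW
    show Psi w N d (br Z W) ∈ 𝔥
    rw [psi_br]
    exact hull_com _ hZ _ hW
  -- the coordinates of the operators
  have hcoord : ∀ f : K →ₗ[k₀] k₀, ((fun i => (cen w h i).map f, fun x => match x with
      | none => Matrix.of fun _ _ => f 1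
      | some s => (hA s).map f) : Fam k₀ N (dO d)) ∈ 𝔥' := by
    intro f
    show Psi w N d _ ∈ 𝔥
    have h1 : Psi w N d ((fun i => (cen w h i).map f, fun x => match x with
        | none => Matrix.of fun _ _ => f 1
        | some s => (hA s).map f) : Fam k₀ N (dO d)) =
        mapS f ((joinM h hA, (1 : K)) : Space K (Sum.elim N d)) := by
      refine Prod.ext ?_ rfl
      funext x
      cases x with
      | inl i =>
        have h2 := cen_map (w := w) (h := h) (hA := hA) (d := d) f i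
        show (cen w h i).map f + ((w i : k₀) / 2 * f 1) • (1 : Matrix (Fin (N i)) (Fin (N i)) k₀) =
          (h i).map f
        rw [← h2]
        have h3 : cenL w N d i (mapS f ((joinM h hA, (1 : K)) : Space K (Sum.elim N d))) =
          (h i).map f - ((w i : k₀) / 2 * f 1) • (1 : Matrix (Fin (N i)) (Fin (N i)) k₀) := rfl
        rw [h3, sub_add_cancel]
      | inr s => rfl
    rw [h1]
    exact hull_coord f
  have h0 : Lifts J 𝔥' ∅ := by
    intro i X hX
    have h1 : ∀ j, SpLie (J j) ((Pi.single i X : ∀ i, Matrix (Fin (N i)) (Fin (N i)) k₀) j) := by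
      intro j
      by_cases hj : j = i
      · subst hj
        rw [Pi.single_eq_same]
        exact hX
      · rw [Pi.single_eq_of_ne hj]
        exact (spSub (J j)).zero_mem
    have h2 := hg.2 (𝔥'.map (LinearMap.fst k₀ _ _)) ?_ (fam_ext fun f => ⟨_, hcoord f, rfl⟩) _ h1
    · obtain ⟨Z, hZ, hZX⟩ := h2
      have hZX' : Z.1 = Pi.single i X := hZX
      refine ⟨Z, hZ, ?_, fun j hj => ?_, fun s hs => absurd hs (Finset.notMem_empty s)⟩
      · rw [hZX', Pi.single_eq_same]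
      · rw [hZX', Pi.single_eq_of_ne hj]
    · rintro _ ⟨Z, hZ, rfl⟩ _ ⟨W, hW, rfl⟩
      exact ⟨br Z W, hbr Z hZ W hW, rfl⟩
  have hsp : ∀ X, (∀ i, SpLie (J i) (X i)) → ((X, 0) : Fam k₀ N (dO d)) ∈ 𝔥' := by
    intro X hX
    refine splits hJ hbr h0 (fun x => ?_) hX
    cases x with
    | none =>
      right
      intro Z _ W _
      exact one_comm _ _
    | some s =>
      rcases hs s with h1 | h1
      · exact Or.inl h1
      · right
        intro Z hZ W hW
        have h2 := ((mem_big (J := J) (w := w)).1 (hull_le_big hg.1 hZ)).2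
        have h3 := ((mem_big (J := J) (w := w)).1 (hull_le_big hg.1 hW)).2
        exact h1 _ h2 _ h3
  intro Z hZ
  rw [mem_big] at hZ
  obtain ⟨Z', hZ', hpr⟩ := (hull_proj (z := ((joinM h hA, (1 : K)) : Space K (Sum.elim N d)))).1 hZ.2
  have hZ'' := ((mem_big (J := J) (w := w)).1 (hull_le_big hg.1 hZ')).1
  have h1 : ((fun i => cenL w N d i Z - cenL w N d i Z', 0) : Fam k₀ N (dO d)) ∈ 𝔥' := by
    refine hsp _ fun i => ?_
    exact (spSub (J i)).sub_mem (hZ.1 i) (hZ'' i)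
  have h2 : Psi w N d ((fun i => cenL w N d i Z - cenL w N d i Z', 0) : Fam k₀ N (dO d)) ∈ 𝔥 := h1
  have h3 : Z = Psi w N d ((fun i => cenL w N d i Z - cenL w N d i Z', 0) : Fam k₀ N (dO d)) + Z' := by
    have hp1 : ∀ s, (prS k₀ N d Z').1 s = (prS k₀ N d Z).1 s := fun s => by rw [hpr]
    have hp2 : Z'.2 = Z.2 := by
      have h4 : (prS k₀ N d Z').2 = (prS k₀ N d Z).2 := by rw [hpr]
      exact h4
    refine Prod.ext ?_ ?_
    · funext x
      cases x with
      | inl i =>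
        show pL Z i = (pL Z i - ((w i : k₀) / 2 * Z.2) •
          (1 : Matrix (Fin (N i)) (Fin (N i)) k₀) - (pL Z' i - ((w i : k₀) / 2 * Z'.2) •
          (1 : Matrix (Fin (N i)) (Fin (N i)) k₀)) + ((w i : k₀) / 2 * 0) •
          (1 : Matrix (Fin (N i)) (Fin (N i)) k₀)) + pL Z' i
        rw [hp2, mul_zero, zero_smul, add_zero]
        abel
      | inr s =>
        show (prS k₀ N d Z).1 s = 0 + (prS k₀ N d Z').1 s
        rw [hp1, zero_add]
    · show Z.2 = 0 + Z'.2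
      rw [hp2, zero_add]
  rw [h3]
  exact 𝔥.add_mem h2 hZ'

end

end Pool.Agent.U190.MT
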