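import Pool.Agent.R932.PO.Hdg

/-!
# The smallest rational Lie algebra whose extension of scalars contains a given operator
-/

set_option autoImplicit false
set_option linter.unusedSectionVars false

open Matrix

namespace Pool.Agent.U190.MT

section basic
variable {X : Type} {n : X → ℕ}

/-- families of matrices, and a number -/
abbrev Space (F : Type) [Field F] {X : Type} (n : X → ℕ) : Type :=
  (∀ x, Matrix (Fin (n x)) (Fin (n x)) F) × F

/-- the commutator of families of matrices and numbers -/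
def com {F : Type} [Field F] (Z W : Space F n) : Space F n :=
  (fun x => Z.1 x * W.1 x - W.1 x * Z.1 x, 0)

/-- a map applied to all coordinates -/
def mapS {F E : Type} [Field F] [Field E] (f : F → E) (Z : Space F n) : Space E n :=
  (fun x => (Z.1 x).map f, f Z.2)

variable {k₀ K : Type} [Field k₀] [Field K] [Algebra k₀ K]

variable (K) in
/-- the extension of scalars of a subspace -/
def extS (𝔞 : Submodule k₀ (Space k₀ n)) : Submodule K (Space K n) :=
  Submodule.span K {Z | ∃ Y ∈ 𝔞, Z = mapS (algebraMap k₀ K) Y}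

variable (k₀) in
/-- the smallest Lie algebra whose extension of scalars contains `z` -/
def hull (z : Space K n) : Submodule k₀ (Space k₀ n) :=
  sInf {𝔞 | (∀ Z ∈ 𝔞, ∀ W ∈ 𝔞, com Z W ∈ 𝔞) ∧ z ∈ extS K 𝔞}

theorem coord_of_ext {𝔞 : Submodule k₀ (Space k₀ n)} {Z : Space K n} (h : Z ∈ extS K 𝔞) :
    ∀ f : K →ₗ[k₀] k₀, mapS f Z ∈ 𝔞 := by
  unfold extS at h
  induction h using Submodule.span_induction with
  | mem Z hZ =>
    obtain ⟨Y, hY, rfl⟩ := hZ
    intro f
    have h1 : mapS f (mapS (algebraMap k₀ K) Y) = f 1 • Y := by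
      have h2 : ∀ c : k₀, f (algebraMap k₀ K c) = f 1 * c := by
        intro c
        rw [Algebra.algebraMap_eq_smul_one, map_smul, smul_eq_mul, mul_comm]
      refine Prod.ext ?_ (h2 _)
      funext x
      ext p q
      exact h2 _
    rw [h1]
    exact 𝔞.smul_mem _ hY
  | zero =>
    intro f
    have h1 : mapS f (0 : Space K n) = 0 := by
      refine Prod.ext ?_ (map_zero f)
      funext x
      ext p q
      exact map_zero f
    rw [h1]
    exact 𝔞.zero_mem
  | add Z W _ _ hZ hW =>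
    intro f
    have h1 : mapS f (Z + W) = mapS f Z + mapS f W := by
      refine Prod.ext ?_ (map_add f _ _)
      funext x
      ext p q
      exact map_add f _ _
    rw [h1]
    exact 𝔞.add_mem (hZ f) (hW f)
  | smul c Z _ hZ =>
    intro f
    have h1 : mapS f (c • Z) = mapS (f.comp (LinearMap.mulLeft k₀ c)) Z := by
      refine Prod.ext ?_ rfl
      funext x
      ext p q
      rfl
    rw [h1]
    exact hZ _

theorem ext_of_coord [Fintype X] {𝔞 : Submodule k₀ (Space k₀ n)} {Z : Space K n}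
    (h : ∀ f : K →ₗ[k₀] k₀, mapS f Z ∈ 𝔞) : Z ∈ extS K 𝔞 := by
  classical
  let back : (((Σ x, Fin (n x) × Fin (n x)) ⊕ Unit) → k₀) → Space k₀ n := fun u =>
    (fun x => Matrix.of fun p q => u (Sum.inl ⟨x, (p, q)⟩), u (Sum.inr ()))
  let Λ : (((Σ x, Fin (n x) × Fin (n x)) ⊕ Unit) → K) →ₗ[K] Space K n :=
    { toFun := fun u => (fun x => Matrix.of fun p q => u (Sum.inl ⟨x, (p, q)⟩), u (Sum.inr ()))
      map_add' := fun x y => rfl
      map_smul' := fun c x => rfl }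
  let T : ((Σ x, Fin (n x) × Fin (n x)) ⊕ Unit) → K := fun r =>
    Sum.elim (fun r : (Σ x, Fin (n x) × Fin (n x)) => Z.1 r.1 r.2.1 r.2.2) (fun _ => Z.2) r
  have h1 := Pool.Agent.R932.PO.span_rat (k₀ := k₀) T (fun u => back u ∈ 𝔞) (fun f => h f)
  have h2 := Submodule.mem_map_of_mem (f := Λ) h1
  have h3 : Λ T = Z := rfl
  rw [h3, Submodule.map_span] at h2
  refine Submodule.span_mono ?_ h2
  rintro _ ⟨_, ⟨T₀, hT₀, rfl⟩, rfl⟩
  exact ⟨_, hT₀, rfl⟩

theorem mem_ext [Fintype X] {𝔞 : Submodule k₀ (Space k₀ n)} {Z : Space K n} :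
    Z ∈ extS K 𝔞 ↔ ∀ f : K →ₗ[k₀] k₀, mapS f Z ∈ 𝔞 :=
  ⟨coord_of_ext, ext_of_coord⟩

theorem hull_com {z : Space K n} : ∀ Z ∈ hull k₀ z, ∀ W ∈ hull k₀ z, com Z W ∈ hull k₀ z := by
  intro Z hZ W hW
  unfold hull at hZ hW ⊢
  rw [Submodule.mem_sInf] at hZ hW ⊢
  intro 𝔞 h𝔞
  exact h𝔞.1 Z (hZ 𝔞 h𝔞) W (hW 𝔞 h𝔞)

theorem hull_coord {z : Space K n} (f : K →ₗ[k₀] k₀) : mapS f z ∈ hull k₀ z := by
  unfold hull
  rw [Submodule.mem_sInf]
  intro 𝔞 h𝔞
  exact coord_of_ext h𝔞.2 f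

theorem hull_le [Fintype X] {z : Space K n} {𝔞 : Submodule k₀ (Space k₀ n)}
    (h1 : ∀ Z ∈ 𝔞, ∀ W ∈ 𝔞, com Z W ∈ 𝔞) (h2 : ∀ f : K →ₗ[k₀] k₀, mapS f z ∈ 𝔞) :
    hull k₀ z ≤ 𝔞 :=
  sInf_le ⟨h1, ext_of_coord h2⟩

end basic

section join
variable {ι ι' : Type} {N : ι → ℕ} {d : ι' → ℕ}

/-- two families of matrices as one family -/
def joinM {F : Type} [Field F] (A : ∀ i, Matrix (Fin (N i)) (Fin (N i)) F)
    (B : ∀ s, Matrix (Fin (d s)) (Fin (d s)) F) :
    ∀ x : ι ⊕ ι', Matrix (Fin (Sum.elim N d x)) (Fin (Sum.elim N d x)) F :=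
  fun x => match x with
    | Sum.inl i => A i
    | Sum.inr s => B s

/-- the projection to the second family -/
def prS (F : Type) [Field F] (N : ι → ℕ) (d : ι' → ℕ) :
    Space F (Sum.elim N d) →ₗ[F] Space F d where
  toFun Z := (fun s => Z.1 (Sum.inr s), Z.2)
  map_add' _ _ := rfl
  map_smul' _ _ := rfl

variable {k₀ K : Type} [Field k₀] [Field K] [Algebra k₀ K]

theorem hull_proj [Fintype ι] [Fintype ι'] {z : Space K (Sum.elim N d)} {Y : Space k₀ d} :
    Y ∈ hull k₀ (prS K N d z) ↔ ∃ Z ∈ hull k₀ z, prS k₀ N d Z = Y := by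
  constructor
  · intro hY
    have h1 : hull k₀ (prS K N d z) ≤ (hull k₀ z).map (prS k₀ N d) := by
      refine hull_le ?_ fun f => ?_
      · rintro _ ⟨Z, hZ, rfl⟩ _ ⟨W, hW, rfl⟩
        exact ⟨com Z W, hull_com Z hZ W hW, rfl⟩
      · exact ⟨mapS f z, hull_coord f, rfl⟩
    exact h1 hY
  · rintro ⟨Z, hZ, rfl⟩
    have h1 : hull k₀ z ≤ (hull k₀ (prS K N d z)).comap (prS k₀ N d) := by
      refine hull_le ?_ fun f => ?_
      · intro Z hZ W hW
        exact hull_com (prS k₀ N d Z) hZ (prS k₀ N d W) hW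
      · exact hull_coord (z := prS K N d z) f
    exact h1 hZ

end join

end Pool.Agent.U190.MT
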